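import Mathlib
import Pool.Agent.W151.DiamTwo

set_option autoImplicit false

/-!
# The limit of `e_2(n, c n) / n` does not exist for `c = 3/5`

`e d n k` is the least number of edges of a graph of order `n`, diameter at most `d` and maximum
degree at most `k`.  For `n = 5 t` one has `e 2 n (3 n / 5) ≤ 12 n / 5`; for large `n = 5 t + 3`
one has `e 2 n (3 n / 5) > 2.401 n`.
-/

namespace Pool.Agent.Results.MP_5980c2_co.NoLimitThreeFifths

open Filter Topology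

/-- `G` has diameter at most `d`: any two vertices are joined by a walk of length at most `d`. -/
def DiamLe {V : Type} (G : SimpleGraph V) (d : ℕ) : Prop :=
  ∀ u v : V, ∃ p : G.Walk u v, p.length ≤ d

/-- The numbers of edges of the graphs on `n` vertices of diameter at most `d` all of whose
vertices have degree at most `k`. -/
def sizes (d n : ℕ) (k : ℝ) : Set ℕ :=
  {m | ∃ G : SimpleGraph (Fin n), DiamLe G d ∧ (∀ v, ((G.neighborSet v).ncard : ℝ) ≤ k) ∧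
    G.edgeSet.ncard = m}

/-- `e_d(n, k)`: the minimum number of edges of such a graph. -/
noncomputable def e (d n : ℕ) (k : ℝ) : ℕ := sInf (sizes d n k)

lemma diam_two {V : Type} {G : SimpleGraph V} (h : DiamLe G 2) (u v : V) :
    u = v ∨ G.Adj u v ∨ ∃ w, G.Adj u w ∧ G.Adj w v := by
  obtain ⟨p, hp⟩ := h u v
  cases p with
  | nil => exact Or.inl rfl
  | cons h1 q =>
    cases q with
    | nil => exact Or.inr (Or.inl h1)
    | cons h2 r =>
      cases r with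
      | nil => exact Or.inr (Or.inr ⟨_, h1, h2⟩)
      | cons h3 s =>
        simp only [SimpleGraph.Walk.length_cons] at hp
        omega

lemma diam_of {V : Type} {G : SimpleGraph V}
    (h : ∀ u v, u = v ∨ G.Adj u v ∨ ∃ w, G.Adj u w ∧ G.Adj w v) : DiamLe G 2 := by
  intro u v
  rcases h u v with h | h | ⟨w, h1, h2⟩
  · subst h
    exact ⟨SimpleGraph.Walk.nil, by simp⟩
  · exact ⟨SimpleGraph.Walk.cons h SimpleGraph.Walk.nil, by simp⟩
  · exact ⟨SimpleGraph.Walk.cons h1 (SimpleGraph.Walk.cons h2 SimpleGraph.Walk.nil), by simp⟩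

/-- a balanced complete bipartite graph -/
def bip (n : ℕ) : SimpleGraph (Fin n) where
  Adj u v := (u.1 < n / 2 ∧ ¬ v.1 < n / 2) ∨ (v.1 < n / 2 ∧ ¬ u.1 < n / 2)
  symm := ⟨by
    intro u v h
    tauto⟩
  loopless := ⟨by
    intro u h
    tauto⟩

/-- bounding the size of a set of vertices by an injection into a range -/
lemma ncard_le_of_inj {n : ℕ} (s : Set (Fin n)) (k : ℕ) (f : ℕ → ℕ)
    (h1 : ∀ i ∈ s, f i.1 < k) (h2 : ∀ i ∈ s, ∀ j ∈ s, f i.1 = f j.1 → i.1 = j.1) :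
    s.ncard ≤ k := by
  have h3 : s.ncard ≤ (Finset.range k : Set ℕ).ncard := by
    apply Set.ncard_le_ncard_of_injOn (fun i => f i.1)
    · intro i hi
      simpa using h1 i hi
    · intro i hi j hj hij
      exact Fin.ext (h2 i hi j hj hij)
  rwa [Set.ncard_coe_finset, Finset.card_range] at h3

lemma nonempty_sizes (n : ℕ) (hn : 5 ≤ n) : (sizes 2 n (3 / 5 * n)).Nonempty := by
  refine ⟨_, bip n, diam_of ?_, ?_, rfl⟩
  · intro u v
    have hu := u.2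
    have hv := v.2
    by_cases h1 : u.1 < n / 2 <;> by_cases h2 : v.1 < n / 2
    · have h3 : ¬ (n - 1) < n / 2 := by omega
      exact Or.inr (Or.inr ⟨⟨n - 1, by omega⟩, Or.inl ⟨h1, h3⟩, Or.inr ⟨h2, h3⟩⟩)
    · exact Or.inr (Or.inl (Or.inl ⟨h1, h2⟩))
    · exact Or.inr (Or.inl (Or.inr ⟨h2, h1⟩))
    · have h3 : 0 < n / 2 := by omega
      exact Or.inr (Or.inr ⟨⟨0, by omega⟩, Or.inr ⟨h3, h1⟩, Or.inl ⟨h3, h2⟩⟩)
  · intro v
    have h : ((bip n).neighborSet v).ncard ≤ n - n / 2 := by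
      apply ncard_le_of_inj _ _ (fun i => if v.1 < n / 2 then i - n / 2 else i)
      · intro i hi
        have hi' : (v.1 < n / 2 ∧ ¬ i.1 < n / 2) ∨ (i.1 < n / 2 ∧ ¬ v.1 < n / 2) := hi
        have := i.2
        split_ifs <;> omega
      · intro i hi j hj hij
        have hi' : (v.1 < n / 2 ∧ ¬ i.1 < n / 2) ∨ (i.1 < n / 2 ∧ ¬ v.1 < n / 2) := hi
        have hj' : (v.1 < n / 2 ∧ ¬ j.1 < n / 2) ∨ (j.1 < n / 2 ∧ ¬ v.1 < n / 2) := hj
        split_ifs at hij <;> omega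
    have h2 : 5 * ((bip n).neighborSet v).ncard ≤ 3 * n := by omega
    have h3 : (5 : ℝ) * (((bip n).neighborSet v).ncard : ℝ) ≤ 3 * n := by exact_mod_cast h2
    linarith

/-- the relation: `i` is attached to the hub `h` -/
def rel (i h : ℕ) : Prop :=
  (4 ≤ i ∧ ((h = 0 ∧ i % 5 < 3) ∨ (1 ≤ h ∧ h ≤ 3 ∧ (i % 5 + 1 = h ∨ 3 ≤ i % 5)))) ∨
    (1 ≤ i ∧ i ≤ 3 ∧ h = 0)

/-- the extremal graph on `5 t` vertices, with hubs `0, 1, 2, 3` -/
def ext (n : ℕ) : SimpleGraph (Fin n) where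
  Adj u v := rel u.1 v.1 ∨ rel v.1 u.1
  symm := ⟨by
    intro u v h
    tauto⟩
  loopless := ⟨by
    intro u h
    unfold rel at h
    omega⟩

lemma ext_deg (t : ℕ) (ht : 1 ≤ t) (v : Fin (5 * t)) :
    ((ext (5 * t)).neighborSet v).ncard ≤ 3 * t := by
  have hv := v.2
  by_cases h0 : v.1 = 0
  · apply ncard_le_of_inj _ _ (fun i => if i < 4 then i - 1 else 3 * (i / 5) + i % 5)
    · intro i hi
      have hi' : rel v.1 i.1 ∨ rel i.1 v.1 := hi
      have := i.2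
      unfold rel at hi'
      split_ifs <;> omega
    · intro i hi j hj hij
      have hi' : rel v.1 i.1 ∨ rel i.1 v.1 := hi
      have hj' : rel v.1 j.1 ∨ rel j.1 v.1 := hj
      unfold rel at hi' hj'
      split_ifs at hij <;> omega
  · by_cases h4 : v.1 < 4
    · apply ncard_le_of_inj _ _ (fun i => if i = 0 then 0 else 3 * (i / 5) + (if i % 5 = 4 then 2
        else if i % 5 = 3 then 1 else 0))
      · intro i hi
        have hi' : rel v.1 i.1 ∨ rel i.1 v.1 := hi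
        have := i.2
        unfold rel at hi'
        split_ifs <;> omega
      · intro i hi j hj hij
        have hi' : rel v.1 i.1 ∨ rel i.1 v.1 := hi
        have hj' : rel v.1 j.1 ∨ rel j.1 v.1 := hj
        unfold rel at hi' hj'
        split_ifs at hij <;> omega
    · apply ncard_le_of_inj _ _ (fun i => if v.1 % 5 < 3 then (if i = 0 then 0 else 1) else i - 1)
      · intro i hi
        have hi' : rel v.1 i.1 ∨ rel i.1 v.1 := hi
        have := i.2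
        unfold rel at hi'
        split_ifs <;> omega
      · intro i hi j hj hij
        have hi' : rel v.1 i.1 ∨ rel i.1 v.1 := hi
        have hj' : rel v.1 j.1 ∨ rel j.1 v.1 := hj
        unfold rel at hi' hj'
        split_ifs at hij <;> omega

lemma rel_B {i : ℕ} (h1 : 1 ≤ i) (h2 : i ≤ 3) : rel i 0 := Or.inr ⟨h1, h2, rfl⟩

lemma rel_C {i : ℕ} (h1 : 4 ≤ i) (h2 : i % 5 < 3) : rel i 0 := Or.inl ⟨h1, Or.inl ⟨rfl, h2⟩⟩

lemma rel_C' {i : ℕ} (h1 : 4 ≤ i) (h2 : i % 5 < 3) : rel i (i % 5 + 1) :=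
  Or.inl ⟨h1, Or.inr ⟨by omega, by omega, Or.inl rfl⟩⟩

lemma rel_D {i h : ℕ} (h1 : 4 ≤ i) (h2 : 3 ≤ i % 5) (h3 : 1 ≤ h) (h4 : h ≤ 3) : rel i h :=
  Or.inl ⟨h1, Or.inr ⟨h3, h4, Or.inr h2⟩⟩

lemma ext_key (u v : ℕ) : u = v ∨ (rel u v ∨ rel v u) ∨
    ∃ w, w < 4 ∧ (rel u w ∨ rel w u) ∧ (rel w v ∨ rel v w) := by
  have cases4 : ∀ i : ℕ, i = 0 ∨ (1 ≤ i ∧ i ≤ 3) ∨ (4 ≤ i ∧ i % 5 < 3) ∨ (4 ≤ i ∧ 3 ≤ i % 5) := by
    intro i; omega
  rcases cases4 u with hu | ⟨hu1, hu2⟩ | ⟨hu1, hu2⟩ | ⟨hu1, hu2⟩ <;>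
    rcases cases4 v with hv | ⟨hv1, hv2⟩ | ⟨hv1, hv2⟩ | ⟨hv1, hv2⟩
  · exact Or.inl (hu.trans hv.symm)
  · subst hu; exact Or.inr (Or.inl (Or.inr (rel_B hv1 hv2)))
  · subst hu; exact Or.inr (Or.inl (Or.inr (rel_C hv1 hv2)))
  · subst hu
    exact Or.inr (Or.inr ⟨1, by norm_num, Or.inr (rel_B le_rfl (by norm_num)),
      Or.inr (rel_D hv1 hv2 le_rfl (by norm_num))⟩)
  · subst hv; exact Or.inr (Or.inl (Or.inl (rel_B hu1 hu2)))
  · exact Or.inr (Or.inr ⟨0, by norm_num, Or.inl (rel_B hu1 hu2), Or.inr (rel_B hv1 hv2)⟩)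
  · exact Or.inr (Or.inr ⟨0, by norm_num, Or.inl (rel_B hu1 hu2), Or.inr (rel_C hv1 hv2)⟩)
  · exact Or.inr (Or.inl (Or.inr (rel_D hv1 hv2 hu1 hu2)))
  · subst hv; exact Or.inr (Or.inl (Or.inl (rel_C hu1 hu2)))
  · exact Or.inr (Or.inr ⟨0, by norm_num, Or.inl (rel_C hu1 hu2), Or.inr (rel_B hv1 hv2)⟩)
  · exact Or.inr (Or.inr ⟨0, by norm_num, Or.inl (rel_C hu1 hu2), Or.inr (rel_C hv1 hv2)⟩)
  · exact Or.inr (Or.inr ⟨u % 5 + 1, by omega, Or.inl (rel_C' hu1 hu2),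
      Or.inr (rel_D hv1 hv2 (by omega) (by omega))⟩)
  · subst hv
    exact Or.inr (Or.inr ⟨1, by norm_num, Or.inl (rel_D hu1 hu2 le_rfl (by norm_num)),
      Or.inl (rel_B le_rfl (by norm_num))⟩)
  · exact Or.inr (Or.inl (Or.inl (rel_D hu1 hu2 hv1 hv2)))
  · exact Or.inr (Or.inr ⟨v % 5 + 1, by omega, Or.inl (rel_D hu1 hu2 (by omega) (by omega)),
      Or.inr (rel_C' hv1 hv2)⟩)
  · exact Or.inr (Or.inr ⟨1, by norm_num, Or.inl (rel_D hu1 hu2 le_rfl (by norm_num)),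
      Or.inr (rel_D hv1 hv2 le_rfl (by norm_num))⟩)

lemma ext_diam (t : ℕ) (ht : 1 ≤ t) (u v : Fin (5 * t)) :
    u = v ∨ (ext (5 * t)).Adj u v ∨ ∃ w, (ext (5 * t)).Adj u w ∧ (ext (5 * t)).Adj w v := by
  rcases ext_key u.1 v.1 with h | h | ⟨w, hw, h⟩
  · exact Or.inl (Fin.ext h)
  · exact Or.inr (Or.inl h)
  · exact Or.inr (Or.inr ⟨⟨w, by omega⟩, h⟩)

lemma ext_edges (t : ℕ) (ht : 1 ≤ t) : (ext (5 * t)).edgeSet.ncard ≤ 12 * t := by
  set G := ext (5 * t) with hG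
  have h0 : 0 < 5 * t := by omega
  have h1 : 1 < 5 * t := by omega
  have h2 : 2 < 5 * t := by omega
  have h3 : 3 < 5 * t := by omega
  have hsub : G.edgeSet ⊆
      (fun u => s((⟨0, h0⟩ : Fin (5 * t)), u)) '' (G.neighborSet ⟨0, h0⟩) ∪
      ((fun u => s((⟨1, h1⟩ : Fin (5 * t)), u)) '' (G.neighborSet ⟨1, h1⟩) ∪
      ((fun u => s((⟨2, h2⟩ : Fin (5 * t)), u)) '' (G.neighborSet ⟨2, h2⟩) ∪
      (fun u => s((⟨3, h3⟩ : Fin (5 * t)), u)) '' (G.neighborSet ⟨3, h3⟩))) := by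
    intro x hx
    induction x using Sym2.ind with
    | _ u v =>
      rw [SimpleGraph.mem_edgeSet] at hx
      have hx' : rel u.1 v.1 ∨ rel v.1 u.1 := hx
      have hlt : u.1 < 4 ∨ v.1 < 4 := by
        unfold rel at hx'
        omega
      have key : ∀ a b : Fin (5 * t), G.Adj a b → a.1 < 4 → s(a, b) ∈
          (fun u => s((⟨0, h0⟩ : Fin (5 * t)), u)) '' (G.neighborSet ⟨0, h0⟩) ∪
          ((fun u => s((⟨1, h1⟩ : Fin (5 * t)), u)) '' (G.neighborSet ⟨1, h1⟩) ∪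
          ((fun u => s((⟨2, h2⟩ : Fin (5 * t)), u)) '' (G.neighborSet ⟨2, h2⟩) ∪
          (fun u => s((⟨3, h3⟩ : Fin (5 * t)), u)) '' (G.neighborSet ⟨3, h3⟩))) := by
        intro a b hab ha
        have : a = ⟨0, h0⟩ ∨ a = ⟨1, h1⟩ ∨ a = ⟨2, h2⟩ ∨ a = ⟨3, h3⟩ := by
          simp only [Fin.ext_iff]
          omega
        rcases this with rfl | rfl | rfl | rfl
        · exact Or.inl ⟨b, hab, rfl⟩
        · exact Or.inr (Or.inl ⟨b, hab, rfl⟩)
        · exact Or.inr (Or.inr (Or.inl ⟨b, hab, rfl⟩))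
        · exact Or.inr (Or.inr (Or.inr ⟨b, hab, rfl⟩))
      rcases hlt with h | h
      · exact key u v hx h
      · rw [Sym2.eq_swap]
        exact key v u hx.symm h
  have hdeg : ∀ v : Fin (5 * t), ((fun u => s(v, u)) '' (G.neighborSet v)).ncard ≤ 3 * t :=
    fun v => (Set.ncard_image_le (Set.toFinite _)).trans (ext_deg t ht v)
  have h4 := Set.ncard_le_ncard hsub (Set.toFinite _)
  have h5 := h4.trans ((Set.ncard_union_le _ _).trans (Nat.add_le_add_left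
    ((Set.ncard_union_le _ _).trans (Nat.add_le_add_left (Set.ncard_union_le _ _) _)) _))
  have := hdeg ⟨0, h0⟩
  have := hdeg ⟨1, h1⟩
  have := hdeg ⟨2, h2⟩
  have := hdeg ⟨3, h3⟩
  omega

/-- upper bound for `n = 5 t` -/
lemma upper (t : ℕ) (ht : 1 ≤ t) : e 2 (5 * t) (3 / 5 * ((5 * t : ℕ) : ℝ)) ≤ 12 * t := by
  refine le_trans (Nat.sInf_le ?_) (ext_edges t ht)
  refine ⟨ext (5 * t), diam_of (ext_diam t ht), ?_, rfl⟩
  intro v
  have h : (((ext (5 * t)).neighborSet v).ncard : ℝ) ≤ ((3 * t : ℕ) : ℝ) := by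
    exact_mod_cast ext_deg t ht v
  push_cast at h ⊢
  linarith

/-- lower bound for large `n = 5 t + 3` -/
lemma lower (t : ℕ) (ht : 5001000200 ≤ t) :
    2401 * (5 * t + 3) < 1000 * e 2 (5 * t + 3) (3 / 5 * ((5 * t + 3 : ℕ) : ℝ)) := by
  obtain ⟨G, hG, hdeg, hcard⟩ := Nat.sInf_mem (nonempty_sizes (5 * t + 3) (by omega))
  have h1 : e 2 (5 * t + 3) (3 / 5 * ((5 * t + 3 : ℕ) : ℝ)) = G.edgeSet.ncard := hcard.symm
  rw [h1]
  refine Pool.Agent.W151.DiamTwo.lower G (diam_two hG) (5 * t + 3) (3 * t + 1) (by simp)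
    (by omega) ?_ (by omega)
  intro v
  have h2 : (Pool.Agent.W151.DiamTwo.N G v).card = (G.neighborSet v).ncard := by
    rw [← Set.ncard_coe_finset]
    congr 1
    ext u
    simp [Pool.Agent.W151.DiamTwo.mem_N]
  rw [h2]
  have h3 := hdeg v
  push_cast at h3
  have h4 : (5 : ℝ) * ((G.neighborSet v).ncard : ℝ) ≤ 3 * (5 * t + 3) := by linarith
  have h5 : 5 * (G.neighborSet v).ncard ≤ 3 * (5 * t + 3) := by exact_mod_cast h4
  omega

/-- For `c = 3/5` graphs of order `n`, diameter at most `2` and maximum degree at most `c n`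
exist for all `n ≥ 5`, but `e_2(n, c n) / n` does not converge: it is at most `2.4` for
`n ≡ 0 (mod 5)` and more than `2.401` for all large `n ≡ 3 (mod 5)`. -/
theorem result :
    (∀ n : ℕ, 5 ≤ n → (sizes 2 n (3 / 5 * (n : ℝ))).Nonempty) ∧
    (∀ n : ℕ, 5 ≤ n → n % 5 = 0 → (e 2 n (3 / 5 * (n : ℝ)) : ℝ) / n ≤ 12 / 5) ∧
    (∃ n₀ : ℕ, ∀ n ≥ n₀, n % 5 = 3 → 2401 / 1000 < (e 2 n (3 / 5 * (n : ℝ)) : ℝ) / n) ∧
    ¬ ∃ ℓ : ℝ, Tendsto (fun n : ℕ => (e 2 n (3 / 5 * (n : ℝ)) : ℝ) / n) atTop (𝓝 ℓ) := by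
  have hU : ∀ n : ℕ, 5 ≤ n → n % 5 = 0 → (e 2 n (3 / 5 * (n : ℝ)) : ℝ) / n ≤ 12 / 5 := by
    intro n hn hmod
    obtain ⟨t, rfl⟩ : ∃ t, n = 5 * t := ⟨n / 5, by omega⟩
    have h1 : (e 2 (5 * t) (3 / 5 * ((5 * t : ℕ) : ℝ)) : ℝ) ≤ 12 * t := by
      exact_mod_cast upper t (by omega)
    have ht : (0 : ℝ) < ((5 * t : ℕ) : ℝ) := by
      exact_mod_cast (by omega : 0 < 5 * t)
    rw [div_le_iff₀ ht]
    push_cast at h1 ⊢
    linarith
  have hL : ∀ n : ℕ, 25005001003 ≤ n → n % 5 = 3 →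
      2401 / 1000 < (e 2 n (3 / 5 * (n : ℝ)) : ℝ) / n := by
    intro n hn hmod
    obtain ⟨t, rfl⟩ : ∃ t, n = 5 * t + 3 := ⟨n / 5, by omega⟩
    have h1 : (2401 : ℝ) * (5 * t + 3) <
        1000 * (e 2 (5 * t + 3) (3 / 5 * ((5 * t + 3 : ℕ) : ℝ)) : ℝ) := by
      exact_mod_cast lower t (by omega)
    have ht : (0 : ℝ) < ((5 * t + 3 : ℕ) : ℝ) := by
      exact_mod_cast (by omega : 0 < 5 * t + 3)
    rw [lt_div_iff₀ ht]
    push_cast at h1 ⊢
    linarith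
  refine ⟨nonempty_sizes, hU, ⟨_, hL⟩, ?_⟩
  rintro ⟨ℓ, hℓ⟩
  have t1 : Tendsto (fun t : ℕ => 5 * t) atTop atTop :=
    tendsto_id.const_mul_atTop' (by norm_num)
  have t2 : Tendsto (fun t : ℕ => 5 * t + 3) atTop atTop :=
    tendsto_atTop_mono (fun t => by omega) t1
  have l1 : ℓ ≤ 12 / 5 := by
    refine le_of_tendsto (hℓ.comp t1) ?_
    filter_upwards [eventually_ge_atTop 1] with t ht
    exact hU (5 * t) (by omega) (by omega)
  have l2 : 2401 / 1000 ≤ ℓ := by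
    refine ge_of_tendsto (hℓ.comp t2) ?_
    filter_upwards [eventually_ge_atTop 25005001003] with t ht
    exact (hL (5 * t + 3) (by omega) (by omega)).le
  linarith

end Pool.Agent.Results.MP_5980c2_co.NoLimitThreeFifths
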